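import Mathlib
import Pool.Agent.Helper39.GM.Defs
import Pool.Agent.Helper39.GM.Main

/-!
# MP_8c48dc_lc: simultaneous guessing model principles and the continuum function

If `GMP(ω_(n+1), ω_n)` holds for every `n ≥ 1`, then `2 ^ ℵ_0 > ℵ_ω`.
-/

set_option autoImplicit false

universe u

namespace Pool.Agent.Results.MP_8c48dc_lc.LargeContinuum

open Cardinal Ordinal Pool.Agent.Helper39.GM

/-- Let `b < ω_(a+1)` and suppose `GMP(ℵ_(c+2), ℵ_(c+1))` for every `c` with `a ≤ c < b`.  Then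
`2 ^ ℵ_a > ℵ_b`, and if moreover `2 ^ ℵ_a < ℵ_(ω_(a+1))`, then `2 ^ ℵ_c = 2 ^ ℵ_a` for every `c`
with `a ≤ c ≤ b`.  (For `a = 0` and `b = ω`: if `GMP(ω_(n+1), ω_n)` for all `n ≥ 1`, then
`2 ^ ℵ_0 > ℵ_ω`.) -/
theorem result (a b : Ordinal.{u}) (hb : b < ω_ (a + 1))
    (hG : ∀ c, a ≤ c → c < b → GMP (ℵ_ (c + 2)) (ℵ_ (c + 1))) :
    ℵ_ b < 2 ^ ℵ_ a ∧ (2 ^ ℵ_ a < ℵ_ (ω_ (a + 1)) →
      ∀ c, a ≤ c → c ≤ b → (2 : Cardinal.{u}) ^ ℵ_ c = 2 ^ ℵ_ a) :=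
  ⟨main hb hG, fun h c hac hcb => (const hb hG h c hac hcb).antisymm
    (power_le_power_left two_ne_zero (aleph_le_aleph.2 hac))⟩

end Pool.Agent.Results.MP_8c48dc_lc.LargeContinuum
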