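import Mathlib
import Pool.Agent.Helper39.GM.Defs
import Pool.Agent.Helper39.GM.Equiv

/-!
# MP_8c48dc_lc: the simultaneous guessing model principle is uniform

`GMP(ω_(n+1), ω_n)` holds for every `n ≥ 1` if and only if `GMP(ω_(n+1), ω_1)` holds for every
`n ≥ 1`.
-/

set_option autoImplicit false

universe u

namespace Pool.Agent.Results.MP_8c48dc_lc.UniformGuessing

open Cardinal Ordinal Pool.Agent.Helper39.GM

/-- For every ordinal `a` and every natural number `n`: `GMP(ω_(a+k+2), ω_(a+k+1))` holds for every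
`k ≤ n` if and only if `GMP(ω_(a+k+2), ω_(a+1))` holds for every `k ≤ n`.  Model by model: if
`GMP(ω_(a+k+2), ω_(a+k+1))` for every `k < n`, then for every cardinal `θ > 2 ^ ℵ_(a+n+1)` there is
a club of `N` in `P_(ω_(a+n+2))(H_θ)` which are `ω_(a+n+1)`-guessing if and only if they are
`ω_(a+1)`-guessing.  (For `a = 0` and all `n`: the principle of Q1 is equivalent to
`GMP(ω_(n+1), ω_1)` for all `n ≥ 1`.) -/
theorem result (a : Ordinal.{u}) (n : ℕ) :
    ((∀ k ≤ n, GMP (ℵ_ (a + k + 2)) (ℵ_ (a + k + 1))) ↔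
      ∀ k ≤ n, GMP (ℵ_ (a + k + 2)) (ℵ_ (a + 1))) ∧
    ((∀ k < n, GMP (ℵ_ (a + k + 2)) (ℵ_ (a + k + 1))) →
      ∀ θ : Cardinal.{u}, 2 ^ ℵ_ (a + n + 1) < θ → ∃ C, IsClub (ℵ_ (a + n + 2)) (H θ) C ∧
        ∀ N ∈ C, IsGuessing (ℵ_ (a + n + 1)) N ↔ IsGuessing (ℵ_ (a + 1)) N) :=
  ⟨uniform a n, modelwise_aleph a n⟩

end Pool.Agent.Results.MP_8c48dc_lc.UniformGuessing
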